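import Mathlib

/-!
# `φ(k²+1) = k φ(k+1)` when `k² + 1` has at most two prime factors (MP_9310ca_nt)
-/

set_option autoImplicit false

namespace Pool.Agent.T6.H74.TS

open Finset

/-- Vieta jumping -/
lemma vieta (B : ℤ) (hB : 1 ≤ B) : ∀ (n : ℕ) (k w r : ℤ), w.toNat = n → 1 ≤ w → w ≤ k → 2 ≤ r →
    k * w = (r - 1) ^ 2 → k + w = r * B → B ^ 3 ≤ k := by
  intro n
  induction n using Nat.strong_induction_on with
  | _ n ih =>
    intro k w r hn hw hwk hr h1 h2
    set w' : ℤ := B ^ 2 * w - 2 * B * (r - 1) + k with hw'
    set r' : ℤ := B * w - r + 2 with hr'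
    have e1 : w * w' = (r' - 1) ^ 2 := by
      rw [hw', hr']
      linear_combination h1
    have e2 : w + w' = r' * B := by
      rw [hw', hr']
      linear_combination h2
    have hw0 : 0 ≤ w' := by
      by_contra hneg
      push Not at hneg
      nlinarith [sq_nonneg (r' - 1)]
    have hr1 : 1 ≤ r' := by
      by_contra hneg
      push Not at hneg
      nlinarith
    have hwr : w ≤ r - 1 := by
      by_contra hneg
      push Not at hneg
      nlinarith
    have e3 : r * (r' - 1) = w ^ 2 - (r - 1) := by
      rw [hr']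
      linear_combination (-w) * h2 + h1
    have hlt : r' - 1 < w := by
      by_contra hneg
      push Not at hneg
      nlinarith
    have hww : w' < w := by
      by_contra hneg
      push Not at hneg
      nlinarith
    rcases eq_or_lt_of_le hw0 with h0 | h0
    · have h3 : (r' - 1) ^ 2 = 0 := by rw [← e1, ← h0, mul_zero]
      have h4 : r' = 1 := by
        have := pow_eq_zero_iff (two_ne_zero) |>.1 h3
        linarith
      have h5 : w = B := by
        rw [← h0, h4] at e2
        linarith
      have h6 : k = B * (r - 1) := by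
        rw [h5] at h2
        linarith
      have h7 : B ^ 2 * (r - 1) = (r - 1) ^ 2 := by
        rw [← h1, h5, h6]; ring
      have h8 : r - 1 = B ^ 2 := by
        have h9 : (r - 1) * (B ^ 2 - (r - 1)) = 0 := by linarith
        rcases mul_eq_zero.1 h9 with h | h <;> linarith
      rw [h6, h8]
      exact le_of_eq (by ring)
    · have h3 : 2 ≤ r' := by
        by_contra hneg
        have h4 : r' = 1 := by linarith [show r' ≤ 1 by push Not at hneg; linarith [Int.le_sub_one_of_lt hneg]]
        rw [h4] at e1
        nlinarith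
      have := ih w'.toNat (by omega) w w' r' rfl (by linarith) hww.le h3 e1 e2
      linarith

/-- the number of integers not coprime to a composite number is at least its square root -/
lemma cototient {n : ℕ} (hn : 1 < n) (hc : ¬ n.Prime) : n ≤ (n - n.totient) ^ 2 := by
  set q := n.minFac with hq
  have hqp : q.Prime := Nat.minFac_prime (by omega)
  obtain ⟨m, hm⟩ := Nat.minFac_dvd n
  rw [← hq] at hm
  have hq2 : q ^ 2 ≤ n := Nat.minFac_sq_le_self (by omega) hc
  have hqm : q ≤ m := by
    have : q * q ≤ q * m := by rw [← hm, ← sq]; exact hq2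
    exact Nat.le_of_mul_le_mul_left this hqp.pos
  have hcount : n.totient + m ≤ n := by
    have hdisj : Disjoint ((range n).filter fun a => n.Coprime a)
        ((range m).image fun a => q * a) := by
      rw [Finset.disjoint_left]
      intro a ha hb
      obtain ⟨c, -, rfl⟩ := mem_image.1 hb
      have h1 := (mem_filter.1 ha).2
      have h2 : q ∣ Nat.gcd n (q * c) := Nat.dvd_gcd ⟨m, hm⟩ (dvd_mul_right _ _)
      rw [Nat.Coprime] at h1
      rw [h1] at h2
      exact hqp.one_lt.ne' (Nat.dvd_one.1 h2)
    have hsub : ((range n).filter fun a => n.Coprime a) ∪ ((range m).image fun a => q * a) ⊆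
        range n := by
      intro a ha
      rcases mem_union.1 ha with h | h
      · exact (mem_filter.1 h).1
      · obtain ⟨c, hc, rfl⟩ := mem_image.1 h
        rw [mem_range] at hc ⊢
        rw [hm]
        exact Nat.mul_lt_mul_of_pos_left hc hqp.pos
    have := Finset.card_le_card hsub
    rw [Finset.card_union_of_disjoint hdisj, Finset.card_image_of_injective _
      (fun a b h => Nat.eq_of_mul_eq_mul_left hqp.pos h), card_range, card_range] at this
    exact this
  have h1 : m ≤ n - n.totient := by omega
  calc n = q * m := hm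
    _ ≤ m * m := Nat.mul_le_mul_right _ hqm
    _ = m ^ 2 := (sq m).symm
    _ ≤ (n - n.totient) ^ 2 := Nat.pow_le_pow_left h1 2

lemma semi {k p r : ℕ} (hp : p.Prime) (hr : r.Prime) (hrp : r < p) (hk : k ^ 2 + 1 = p * r)
    (h : (k ^ 2 + 1).totient = k * (k + 1).totient) (hc : ¬ (k + 1).Prime) : k = 8 := by
  have hk0 : 0 < k := by
    rcases Nat.eq_zero_or_pos k with h0 | h0
    · subst h0
      simp at h
    · exact h0
  have hco : p.Coprime r := (Nat.coprime_primes hp hr).2 hrp.ne'
  rw [hk, Nat.totient_mul hco, Nat.totient_prime hp, Nat.totient_prime hr] at h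
  have hcot := cototient (n := k + 1) (by omega) hc
  have htle : (k + 1).totient ≤ k := by
    have := Nat.totient_lt (k + 1) (by omega)
    omega
  have htne : (k + 1).totient ≠ k := by
    intro he
    apply hc
    rw [← Nat.totient_eq_iff_prime (by omega), he]
    rfl
  have htlt : (k + 1).totient < k := lt_of_le_of_ne htle htne
  set t := (k + 1).totient with ht
  have hp1 := hp.one_lt
  have hr1 := hr.one_lt
  -- pass to the integers
  have hkz : (k : ℤ) ^ 2 + 1 = p * r := by exact_mod_cast hk
  have hz : ((p : ℤ) - 1) * (r - 1) = k * t := by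
    have := congrArg (Nat.cast : ℕ → ℤ) h
    push_cast [Nat.cast_sub hp1.le, Nat.cast_sub hr1.le] at this
    exact this
  have hcotz : (k : ℤ) + 1 ≤ ((k : ℤ) + 1 - t) ^ 2 := by
    have h1 : t ≤ k + 1 := by omega
    have := (Nat.cast_le (α := ℤ)).2 hcot
    push_cast [Nat.cast_sub h1] at this
    exact this
  have hB : (1 : ℤ) ≤ (k : ℤ) - t := by
    have : (t : ℤ) + 1 ≤ k := by exact_mod_cast htlt
    linarith
  set B : ℤ := (k : ℤ) - t with hBdef
  have hk1 : (1 : ℤ) ≤ k := by exact_mod_cast hk0
  have hr2 : (2 : ℤ) ≤ r := by exact_mod_cast hr1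
  have hrpz : (r : ℤ) + 1 ≤ p := by exact_mod_cast hrp
  have ht' : (t : ℤ) = k - B := by rw [hBdef]; ring
  rw [ht'] at hz hcotz
  have hsum : (p : ℤ) = k * B + 2 - r := by linarith
  have e1 : (k : ℤ) * (r * B - k) = (r - 1) ^ 2 := by
    rw [hsum] at hkz
    linarith
  have hrk : (r : ℤ) ≤ k := by
    by_contra hneg
    push Not at hneg
    nlinarith
  have hw1 : (1 : ℤ) ≤ r * B - k := by
    by_contra hneg
    push Not at hneg
    nlinarith
  have hwk : (r : ℤ) * B - k ≤ k := by
    by_contra hneg
    push Not at hneg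
    nlinarith
  have hv := vieta B hB _ k (r * B - k) r rfl hw1 hwk hr2 e1 (by ring)
  have hB2 : B ≤ 2 := by
    by_contra hneg
    push Not at hneg
    nlinarith
  have hB12 : B = 1 ∨ B = 2 := by omega
  rcases hB12 with h1 | h1
  · rw [h1] at e1 hcotz
    exfalso
    have hk3 : (k : ℤ) ≤ 3 := by nlinarith
    have hk3' : k ≤ 3 := by exact_mod_cast hk3
    interval_cases k
    · exact hc (by norm_num)
    · exact hc (by norm_num)
    · push_cast at e1
      nlinarith [sq_nonneg (2 * (r : ℤ) - 5)]
  · rw [h1] at hv hcotz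
    have h8 : (k : ℤ) ≤ 8 := by nlinarith
    have h8' : (8 : ℤ) ≤ k := by linarith
    have : (k : ℤ) = 8 := le_antisymm h8 h8'
    exact_mod_cast this

/-- the theorem -/
theorem main (k : ℕ) (h : (k ^ 2 + 1).totient = k * (k + 1).totient)
    (hl : (k ^ 2 + 1).primeFactorsList.length ≤ 2) : (k + 1).Prime ∨ k = 8 := by
  by_cases hc : (k + 1).Prime
  · exact Or.inl hc
  right
  have hk0 : 0 < k := by
    rcases Nat.eq_zero_or_pos k with h0 | h0
    · subst h0
      simp at h
    · exact h0
  have hprod := Nat.prod_primeFactorsList (n := k ^ 2 + 1) (by positivity)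
  have hpr : ∀ p ∈ (k ^ 2 + 1).primeFactorsList, p.Prime :=
    fun p hp => Nat.prime_of_mem_primeFactorsList hp
  match hL : (k ^ 2 + 1).primeFactorsList with
  | [] =>
    rw [hL] at hprod
    simp at hprod
    omega
  | [p] =>
    exfalso
    rw [hL] at hprod hpr
    have hp : p.Prime := hpr p (by simp)
    have e : k ^ 2 + 1 = p := by simpa using hprod.symm
    rw [← e] at hp
    rw [Nat.totient_prime hp] at h
    have h1 : k * k = k * (k + 1).totient := by
      rw [← h]; simp [sq]
    have h2 : k = (k + 1).totient := Nat.eq_of_mul_eq_mul_left hk0 h1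
    apply hc
    rw [← Nat.totient_eq_iff_prime (by omega), ← h2]
    rfl
  | [p, q] =>
    rw [hL] at hprod hpr
    have hp : p.Prime := hpr p (by simp)
    have hq : q.Prime := hpr q (by simp)
    have e : k ^ 2 + 1 = p * q := by simpa using hprod.symm
    rcases lt_trichotomy p q with hlt | heq | hgt
    · exact semi hq hp hlt (by rw [e, mul_comm]) h hc
    · exfalso
      subst heq
      have h1 : k < p := by
        by_contra hneg
        push Not at hneg
        nlinarith
      nlinarith
    · exact semi hp hq hgt e h hc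
  | p :: q :: s :: l =>
    rw [hL] at hl
    simp at hl

end Pool.Agent.T6.H74.TS
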