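import Pool.Agent.T6.H74.TS.Main

/-!
# `φ(k²+1) = k φ(k+1)` for odd `k` with `φ(k+1) ≥ (k-1)/2`
-/

set_option autoImplicit false

namespace Pool.Agent.T6.H74.TS

theorem odd_case (k : ℕ) (h : (k ^ 2 + 1).totient = k * (k + 1).totient) (hodd : Odd k)
    (hk : k ≤ 2 * (k + 1).totient + 1) : k = 1 := by
  obtain ⟨b, rfl⟩ := hodd
  set N := 2 * b ^ 2 + 2 * b + 1 with hN
  have hNk : (2 * b + 1) ^ 2 + 1 = 2 * N := by rw [hN]; ring
  have hNodd : Nat.Coprime 2 N := by
    rw [Nat.coprime_two_left]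
    exact ⟨b ^ 2 + b, by rw [hN]; ring⟩
  rw [hNk, Nat.totient_mul hNodd, Nat.totient_two, one_mul] at h
  set f := (2 * b + 1 + 1).totient with hf
  by_contra hne
  have hb : 1 ≤ b := by omega
  have hfb : b ≤ f := by omega
  rcases Nat.lt_or_ge b f with h1 | h1
  · have h2 := Nat.totient_le N
    rw [h, hN] at h2
    have h3 : (2 * b + 1) * (b + 1) ≤ (2 * b + 1) * f := Nat.mul_le_mul_left _ h1
    nlinarith
  · have h2 : f = b := le_antisymm h1 hfb
    rw [h2] at h
    by_cases hNp : N.Prime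
    · rw [Nat.totient_prime hNp, hN] at h
      have h3 : 2 * b ^ 2 + 2 * b = (2 * b + 1) * b := by omega
      nlinarith
    · have h3 := cototient (n := N) (by rw [hN]; nlinarith) hNp
      have h4 : N - N.totient = b + 1 := by
        rw [h, hN]
        have : 2 * b ^ 2 + 2 * b + 1 = (2 * b + 1) * b + (b + 1) := by ring
        omega
      rw [h4, hN] at h3
      nlinarith

end Pool.Agent.T6.H74.TS
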